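import Pool.Agent.MP_aa8c71_an.Mg.H58_Hedge

set_option autoImplicit false

open Set Pool.Agent.MP_aa8c71_an.H58

namespace Pool.Agent.Results.MP_aa8c71_an.WanderingHole

/-- A transcendental entire function with an invariant Fatou component `U` (an immediate
attracting basin) and a component `V` of the complement of the closure of `U` that misses the
Julia set; `V` is a bounded wandering Fatou component. -/
theorem result : ∃ f : ℂ → ℂ, Differentiable ℂ f ∧
    (¬ ∃ p : Polynomial ℂ, ∀ z, f z = p.eval z) ∧
    ∃ U V : Set ℂ, IsComponent (fatouSet f) U ∧ MapsTo f U U ∧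
      IsComponent (closure U)ᶜ V ∧ Disjoint V (juliaSet f) ∧
      (∃ p ∈ U, f p = p ∧ ‖deriv f p‖ < 1) ∧
      IsComponent (fatouSet f) V ∧ Bornology.IsBounded V ∧
      ∀ n m : ℕ, n ≠ m → Disjoint (f^[n] '' V) (f^[m] '' V) :=
  main

end Pool.Agent.Results.MP_aa8c71_an.WanderingHole
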